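import Pool.Agent.Helper13.R6.SheetB
import Pool.Agent.Helper17.R5.WIT
import Pool.Agent.Helper34.R6.ISO6

/-! # Row W6 (MP_798d7d_nt, rank six): every form has class data -/

set_option autoImplicit false

namespace Pool.Helper13.R6

open Pool.Helper17.R5 (V3 TF tfa tfb tfh tfk tfd tfe ev pol disc lin det3 Rep bq wit_bq_lin
  wit_cramer wit_pos wit_fact wit_sq ST_ISO ST_EMB ST_FACT ST_NORM ST_BRA ST_SUB ST_INEQ)

lemma w6_cf (vu : Fin 3 → V3) (v ω : V3) :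
    ∑ u, cf vu v u * lin ω (vu u) = det3 (vu 0) (vu 1) (vu 2) * lin ω v := by
  rw [Fin.sum_univ_three]
  simp [cf, det3, lin]
  ring

lemma w6_mul3 (T M x y z : ℤ) (hx : |x| ≤ T) (hy : |y| ≤ M) (hz : |z| ≤ M) :
    |x * y * z| ≤ T * M * M := by
  rw [abs_mul, abs_mul]
  have hT : 0 ≤ T := le_trans (abs_nonneg _) hx
  have hM : 0 ≤ M := le_trans (abs_nonneg _) hy
  exact mul_le_mul (mul_le_mul hx hy (abs_nonneg _) hT) hz (abs_nonneg _) (mul_nonneg hT hM)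

lemma w6_bound (T M : ℤ) (N : TF) (t s : V3)
    (h : |tfa N| ≤ T ∧ |tfb N| ≤ T ∧ |tfh N| ≤ T ∧ |tfk N| ≤ T ∧ |tfd N| ≤ T ∧ |tfe N| ≤ T)
    (ht : |t.1| ≤ M ∧ |t.2.1| ≤ M ∧ |t.2.2| ≤ M) (hs : |s.1| ≤ M ∧ |s.2.1| ≤ M ∧ |s.2.2| ≤ M) :
    |pol N t s| ≤ 12 * (T * M * M) ∧ |ev N t| ≤ 12 * (T * M * M) ∧
      |ev N s| ≤ 12 * (T * M * M) := by
  obtain ⟨h1, h2, h3, h4, h5, h6⟩ := h
  obtain ⟨t1, t2, t3⟩ := ht
  obtain ⟨s1, s2, s3⟩ := hs
  have hT0 : 0 ≤ T := le_trans (abs_nonneg _) h1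
  have hM0 : 0 ≤ M := le_trans (abs_nonneg _) t1
  have hX : 0 ≤ T * M * M := by positivity
  refine ⟨?_, ?_, ?_⟩
  · have a1 := abs_le.1 (w6_mul3 T M _ _ _ h1 t1 s1)
    have a2 := abs_le.1 (w6_mul3 T M _ _ _ h2 t1 s2)
    have a3 := abs_le.1 (w6_mul3 T M _ _ _ h2 t2 s1)
    have a4 := abs_le.1 (w6_mul3 T M _ _ _ h3 t2 s2)
    have a5 := abs_le.1 (w6_mul3 T M _ _ _ h4 t1 s3)
    have a6 := abs_le.1 (w6_mul3 T M _ _ _ h4 t3 s1)
    have a7 := abs_le.1 (w6_mul3 T M _ _ _ h5 t2 s3)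
    have a8 := abs_le.1 (w6_mul3 T M _ _ _ h5 t3 s2)
    have a9 := abs_le.1 (w6_mul3 T M _ _ _ h6 t3 s3)
    rw [abs_le]
    simp only [pol]
    constructor <;> linarith
  · have a1 := abs_le.1 (w6_mul3 T M _ _ _ h1 t1 t1)
    have a2 := abs_le.1 (w6_mul3 T M _ _ _ h2 t1 t2)
    have a4 := abs_le.1 (w6_mul3 T M _ _ _ h3 t2 t2)
    have a5 := abs_le.1 (w6_mul3 T M _ _ _ h4 t1 t3)
    have a7 := abs_le.1 (w6_mul3 T M _ _ _ h5 t2 t3)
    have a9 := abs_le.1 (w6_mul3 T M _ _ _ h6 t3 t3)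
    rw [abs_le]
    simp only [ev]
    constructor <;> linarith
  · have a1 := abs_le.1 (w6_mul3 T M _ _ _ h1 s1 s1)
    have a2 := abs_le.1 (w6_mul3 T M _ _ _ h2 s1 s2)
    have a4 := abs_le.1 (w6_mul3 T M _ _ _ h3 s2 s2)
    have a5 := abs_le.1 (w6_mul3 T M _ _ _ h4 s1 s3)
    have a7 := abs_le.1 (w6_mul3 T M _ _ _ h5 s2 s3)
    have a9 := abs_le.1 (w6_mul3 T M _ _ _ h6 s3 s3)
    rw [abs_le]
    simp only [ev]
    constructor <;> linarith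

lemma w6_det (M : ℤ) (t s r : V3) (ht : |t.1| ≤ M ∧ |t.2.1| ≤ M ∧ |t.2.2| ≤ M)
    (hs : |s.1| ≤ M ∧ |s.2.1| ≤ M ∧ |s.2.2| ≤ M) (hr : |r.1| ≤ M ∧ |r.2.1| ≤ M ∧ |r.2.2| ≤ M) :
    |det3 t s r| ≤ 6 * (M * M * M) := by
  obtain ⟨t1, t2, t3⟩ := ht
  obtain ⟨s1, s2, s3⟩ := hs
  obtain ⟨r1, r2, r3⟩ := hr
  have a1 := abs_le.1 (w6_mul3 M M _ _ _ t1 s2 r3)
  have a2 := abs_le.1 (w6_mul3 M M _ _ _ t1 s3 r2)
  have a3 := abs_le.1 (w6_mul3 M M _ _ _ t2 s1 r3)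
  have a4 := abs_le.1 (w6_mul3 M M _ _ _ t2 s3 r1)
  have a5 := abs_le.1 (w6_mul3 M M _ _ _ t3 s1 r2)
  have a6 := abs_le.1 (w6_mul3 M M _ _ _ t3 s2 r1)
  rw [abs_le]
  simp only [det3]
  constructor <;> linarith

lemma w6_M (vs : Fin 6 → V3) (v7 : V3) : ∃ M : ℤ, 1 ≤ M ∧
    (∀ i, |(vs i).1| ≤ M ∧ |(vs i).2.1| ≤ M ∧ |(vs i).2.2| ≤ M) ∧
    (|v7.1| ≤ M ∧ |v7.2.1| ≤ M ∧ |v7.2.2| ≤ M) := by
  have h0 : ∀ v : V3, 0 ≤ |v.1| + |v.2.1| + |v.2.2| := fun v => by positivity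
  have hs : ∀ i, |(vs i).1| + |(vs i).2.1| + |(vs i).2.2| ≤
      ∑ i, (|(vs i).1| + |(vs i).2.1| + |(vs i).2.2|) := fun i =>
    Finset.single_le_sum (f := fun i => |(vs i).1| + |(vs i).2.1| + |(vs i).2.2|)
      (fun j _ => h0 (vs j)) (Finset.mem_univ i)
  have hs0 : 0 ≤ ∑ i, (|(vs i).1| + |(vs i).2.1| + |(vs i).2.2|) :=
    Finset.sum_nonneg fun i _ => h0 (vs i)
  have b1 := abs_nonneg v7.1
  have b2 := abs_nonneg v7.2.1
  have b3 := abs_nonneg v7.2.2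
  refine ⟨1 + (∑ i, (|(vs i).1| + |(vs i).2.1| + |(vs i).2.2|)) + (|v7.1| + |v7.2.1| + |v7.2.2|),
    by linarith, ?_, ?_⟩
  · intro i
    have a1 := abs_nonneg (vs i).1
    have a2 := abs_nonneg (vs i).2.1
    have a3 := abs_nonneg (vs i).2.2
    have := hs i
    refine ⟨?_, ?_, ?_⟩ <;> linarith
  · refine ⟨?_, ?_, ?_⟩ <;> linarith

lemma w6_prod (T P E F X Y : ℤ) (hP : |P| ≤ T) (hE : |E| ≤ T) (hF : |F| ≤ T)
    (h : X * Y = P ^ 2 - 4 * E * F) : |X| * |Y| ≤ 5 * T ^ 2 := by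
  rw [← abs_mul, h]
  have hT0 : 0 ≤ T := le_trans (abs_nonneg _) hP
  have h1 : P ^ 2 ≤ T ^ 2 := by
    rw [← sq_abs P]
    exact pow_le_pow_left₀ (abs_nonneg _) hP 2
  have h2 : |E * F| ≤ T ^ 2 := by
    rw [abs_mul, sq]
    exact mul_le_mul hE hF (abs_nonneg _) hT0
  have h3 : (0 : ℤ) ≤ P ^ 2 := sq_nonneg P
  rw [abs_le] at h2
  rw [abs_le]
  constructor <;> nlinarith

lemma w6_angle (α β γ va vb vb' v7 : V3) (A z w : ℤ) (hd : det3 va vb vb' ≠ 0)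
    (hd1 : |det3 va vb' v7| ≤ A) (hd2 : |det3 va vb v7| ≤ A)
    (h0 : bq (lin α va) (lin β va) (lin γ va) z w = 0) :
    |bq (lin α v7) (lin β v7) (lin γ v7) z w| ≤
        2 * A * |bq (lin α vb) (lin β vb) (lin γ vb) z w| ∨
      |bq (lin α v7) (lin β v7) (lin γ v7) z w| ≤
        2 * A * |bq (lin α vb') (lin β vb') (lin γ vb') z w| := by
  simp only [wit_bq_lin] at h0 ⊢
  set ω : V3 := (α.1 * z ^ 2 + 2 * β.1 * z * w + γ.1 * w ^ 2,
        α.2.1 * z ^ 2 + 2 * β.2.1 * z * w + γ.2.1 * w ^ 2,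
        α.2.2 * z ^ 2 + 2 * β.2.2 * z * w + γ.2.2 * w ^ 2) with hω
  have hA : 0 ≤ A := le_trans (abs_nonneg _) hd1
  have h1 := wit_cramer ω va vb vb' v7
  rw [h0, mul_zero, zero_sub] at h1
  have h2 : |lin ω v7| ≤ |det3 va vb vb' * lin ω v7| := by
    rw [abs_mul]
    have h3 : 1 ≤ |det3 va vb vb'| := Int.one_le_abs hd
    have h4 := abs_nonneg (lin ω v7)
    nlinarith
  rw [h1] at h2
  have h5 : |-(det3 va vb' v7 * lin ω vb) + det3 va vb v7 * lin ω vb'| ≤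
      A * |lin ω vb| + A * |lin ω vb'| := by
    refine le_trans (abs_add_le _ _) ?_
    rw [abs_neg, abs_mul, abs_mul]
    have h6 := mul_le_mul_of_nonneg_right hd1 (abs_nonneg (lin ω vb))
    have h7 := mul_le_mul_of_nonneg_right hd2 (abs_nonneg (lin ω vb'))
    linarith
  rcases le_total |lin ω vb| |lin ω vb'| with h | h
  · right
    have := mul_le_mul_of_nonneg_left h hA
    linarith
  · left
    have := mul_le_mul_of_nonneg_left h hA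
    linarith

/-- Cauchy-Schwarz for a definite binary form -/
lemma w6_cs (n : ℕ) (a b c z w z' w' : ℤ) (hV : (n : ℤ) ^ 2 ≤ a * c - b ^ 2) :
    (n : ℤ) ^ 2 * (z * w' - w * z') ^ 2 ≤ |bq a b c z w| * |bq a b c z' w'| := by
  have h1 : bq a b c z w * bq a b c z' w' =
      (a * z * z' + b * (z * w' + w * z') + c * w * w') ^ 2 +
        (a * c - b ^ 2) * (z * w' - w * z') ^ 2 := by
    simp only [bq]; ring
  have h2 := mul_le_mul_of_nonneg_right hV (sq_nonneg (z * w' - w * z'))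
  have h3 := sq_nonneg (a * z * z' + b * (z * w' + w * z') + c * w * w')
  rw [← abs_mul]
  refine le_trans ?_ (le_abs_self _)
  rw [h1]
  linarith

lemma w6_br (n : ℕ) (hn : 1 ≤ n) (r Qa Qu Qm K0 : ℤ) (h1 : (n : ℤ) ^ 2 * r ^ 2 ≤ Qa * Qm)
    (h2 : Qu * Qm ≤ K0 * (n : ℤ) ^ 4) (ha : 0 ≤ Qa) (hu : 0 ≤ Qu) :
    r ^ 2 * Qu ≤ K0 * Qa * (n : ℤ) ^ 2 := by
  have hn1 : (0 : ℤ) < (n : ℤ) ^ 2 := by
    have : (0 : ℤ) < (n : ℤ) := by exact_mod_cast hn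
    positivity
  have h3 := mul_le_mul_of_nonneg_right h1 hu
  have h4 := mul_le_mul_of_nonneg_left h2 ha
  refine le_of_mul_le_mul_left ?_ hn1
  calc (n : ℤ) ^ 2 * (r ^ 2 * Qu) = (n : ℤ) ^ 2 * r ^ 2 * Qu := by ring
    _ ≤ Qa * Qm * Qu := h3
    _ = Qa * (Qu * Qm) := by ring
    _ ≤ Qa * (K0 * (n : ℤ) ^ 4) := h4
    _ = (n : ℤ) ^ 2 * (K0 * Qa * (n : ℤ) ^ 2) := by ring

lemma w6_mkNP (a b : Fin 3 → ℤ) (K K0 : ℤ) (G n e : ℕ) (eu : Fin 3 → ℕ) (x : P6) (Qe : ℤ)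
    (Qu Qm : Fin 3 → ℤ) (hn : 1 ≤ n) (hK0 : 0 ≤ K0) (hK : 16 + 4 * K0 ≤ K)
    (hnul : qf a x = 0) (hnn : qf b x ≠ 0) (hnz : ∀ u, x.1 u ≠ 0 ∧ x.2 u ≠ 0)
    (hQe0 : 0 ≤ Qe) (hQe : Qe ≤ 4 * 4 ^ e)
    (hQu : ∀ u, (4 : ℤ) ^ (eu u) ≤ Qu u ∧ Qu u ≤ 4 * 4 ^ (eu u))
    (hp : ∀ u, (n : ℤ) ^ 2 * (x.1 u) ^ 2 ≤ Qe * Qu u)
    (hr : ∀ u, (n : ℤ) ^ 2 * (x.2 u) ^ 2 ≤ Qe * Qm u)
    (hQQ : ∀ u, Qu u * Qm u ≤ K0 * (n : ℤ) ^ 4)
    (hct : ∀ m : ℤ, (∀ u, m ∣ x.1 u ∧ m ∣ x.2 u) → |m| ≤ 2 * G) : NP a b K G n e eu x := by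
  have h4e : (0 : ℤ) ≤ 4 ^ e := by positivity
  refine ⟨hnul, hnn, hnz, fun u => ?_, fun u => ?_, hct⟩
  · have h4u : (0 : ℤ) ≤ 4 ^ (eu u) := by positivity
    have h1 := hp u
    have h2 : Qe * Qu u ≤ (4 * 4 ^ e) * (4 * 4 ^ (eu u)) :=
      mul_le_mul hQe (hQu u).2 (le_trans h4u (hQu u).1) (by positivity)
    have h3 : (0 : ℤ) ≤ 4 ^ e * 4 ^ (eu u) := by positivity
    have h5 : (16 : ℤ) ≤ K := by linarith
    have h6 := mul_le_mul_of_nonneg_right h5 h3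
    calc (x.1 u) ^ 2 * (n : ℤ) ^ 2 = (n : ℤ) ^ 2 * (x.1 u) ^ 2 := by ring
      _ ≤ (4 * 4 ^ e) * (4 * 4 ^ (eu u)) := le_trans h1 h2
      _ = 16 * (4 ^ e * 4 ^ (eu u)) := by ring
      _ ≤ K * (4 ^ e * 4 ^ (eu u)) := h6
      _ = K * 4 ^ e * 4 ^ (eu u) := by ring
  · have h4u : (0 : ℤ) ≤ 4 ^ (eu u) := by positivity
    have h1 := w6_br n hn (x.2 u) Qe (Qu u) (Qm u) K0 (hr u) (hQQ u) hQe0 (le_trans h4u (hQu u).1)
    have h2 := mul_le_mul_of_nonneg_left (hQu u).1 (sq_nonneg (x.2 u))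
    have hn2 : (0 : ℤ) ≤ (n : ℤ) ^ 2 := by positivity
    have h3 : K0 * Qe * (n : ℤ) ^ 2 ≤ K0 * (4 * 4 ^ e) * (n : ℤ) ^ 2 :=
      mul_le_mul_of_nonneg_right (mul_le_mul_of_nonneg_left hQe hK0) hn2
    have h5 : 4 * K0 ≤ K := by linarith
    have h6 := mul_le_mul_of_nonneg_right h5 (mul_nonneg h4e hn2)
    calc (x.2 u) ^ 2 * 4 ^ (eu u) ≤ K0 * (4 * 4 ^ e) * (n : ℤ) ^ 2 := le_trans h2 (le_trans h1 h3)
      _ = 4 * K0 * (4 ^ e * (n : ℤ) ^ 2) := by ring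
      _ ≤ K * (4 ^ e * (n : ℤ) ^ 2) := h6
      _ = K * 4 ^ e * (n : ℤ) ^ 2 := by ring

lemma w6_cl (Q : ℤ) (h : 0 < Q) : (4 : ℤ) ^ (Nat.log 4 Q.toNat) ≤ Q ∧
    Q ≤ 4 * 4 ^ (Nat.log 4 Q.toNat) := by
  have h1 : (Q.toNat : ℤ) = Q := Int.toNat_of_nonneg h.le
  have h2 : Q.toNat ≠ 0 := by omega
  have h3 := Nat.pow_log_le_self 4 h2
  have h4 := Nat.lt_pow_succ_log_self (by norm_num : 1 < 4) Q.toNat
  constructor
  · have h5 : ((4 ^ (Nat.log 4 Q.toNat) : ℕ) : ℤ) ≤ (Q.toNat : ℤ) := Int.ofNat_le.2 h3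
    rw [h1] at h5
    exact_mod_cast h5
  · have h5 : (Q.toNat : ℤ) < ((4 ^ (Nat.log 4 Q.toNat).succ : ℕ) : ℤ) := Int.ofNat_lt.2 h4
    rw [h1, pow_succ] at h5
    push_cast at h5
    linarith

lemma w6_ct (G : ℕ) (y : Fin 6 → ℤ)
    (hG : ∀ (m : ℤ) (i j k : Fin 6), i ≠ j → i ≠ k → j ≠ k → m ∣ y i → m ∣ y j → m ∣ y k → |m| ≤ G)
    (i j k : Fin 6) (hij : i ≠ j) (hik : i ≠ k) (hjk : j ≠ k) (m : ℤ) (h1 : m ∣ 2 * y i)
    (h2 : m ∣ 2 * y j) (h3 : m ∣ 2 * y k) : |m| ≤ 2 * G := by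
  rcases Int.even_or_odd m with he | ho
  · obtain ⟨c, hc⟩ := he
    have hc2 : m = 2 * c := by omega
    rw [hc2] at h1 h2 h3
    have h4 := hG c i j k hij hik hjk ((mul_dvd_mul_iff_left two_ne_zero).1 h1)
      ((mul_dvd_mul_iff_left two_ne_zero).1 h2) ((mul_dvd_mul_iff_left two_ne_zero).1 h3)
    rw [hc2, abs_mul, abs_two]
    linarith
  · have hcop : IsCoprime m 2 := by
      obtain ⟨c, hc⟩ := ho
      exact ⟨1, -c, by rw [hc]; ring⟩
    have h4 := hG m i j k hij hik hjk (hcop.dvd_of_dvd_mul_left h1)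
      (hcop.dvd_of_dvd_mul_left h2) (hcop.dvd_of_dvd_mul_left h3)
    have : (0 : ℤ) ≤ G := Int.natCast_nonneg G
    linarith

lemma w6_2y (A B C P P' R R' y : ℤ) (h : B ^ 2 - A * C = y ^ 2) (h1 : P * R = A)
    (h2 : P * R' + P' * R = 2 * B) (h3 : P' * R' = C) (m : ℤ) (hm : m ∣ P * R' - P' * R) :
    m ∣ 2 * y := by
  have e : (2 * y) ^ 2 = (P * R' - P' * R) ^ 2 := by
    have : (2 * y) ^ 2 = (2 * B) ^ 2 - 4 * A * C := by
      calc (2 * y) ^ 2 = 4 * y ^ 2 := by ring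
        _ = 4 * (B ^ 2 - A * C) := by rw [h]
        _ = _ := by ring
    rw [this, ← h2, ← h1, ← h3]
    ring
  rcases sq_eq_sq_iff_eq_or_eq_neg.1 e with h4 | h4
  · rw [h4]; exact hm
  · rw [h4]; exact (dvd_neg).2 hm

/-- the ordering: `σ 0` = smallest, `σ 1` = second or third with a property, `σ 3, σ 4, σ 5` =
the three largest -/
lemma w6_sort (Q : Fin 6 → ℤ) (p : Fin 6 → Fin 6 → Prop)
    (hp : ∀ a b b' : Fin 6, a ≠ b → a ≠ b' → b ≠ b' → p a b ∨ p a b') :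
    ∃ σ : Equiv.Perm (Fin 6), p (σ 0) (σ 1) ∧ Q (σ 0) ≤ Q (σ 3) ∧ Q (σ 1) ≤ Q (σ 3) ∧
      Q (σ 3) ≤ Q (σ 4) ∧ Q (σ 4) ≤ Q (σ 5) := by
  set τ : Equiv.Perm (Fin 6) := Tuple.sort Q with hτ
  have hmono : Monotone (Q ∘ τ) := Tuple.monotone_sort Q
  have m03 : Q (τ 0) ≤ Q (τ 3) := hmono (by decide)
  have m13 : Q (τ 1) ≤ Q (τ 3) := hmono (by decide)
  have m23 : Q (τ 2) ≤ Q (τ 3) := hmono (by decide)
  have m34 : Q (τ 3) ≤ Q (τ 4) := hmono (by decide)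
  have m45 : Q (τ 4) ≤ Q (τ 5) := hmono (by decide)
  have hne : ∀ x y : Fin 6, x ≠ y → τ x ≠ τ y := fun x y hxy h => hxy (τ.injective h)
  rcases hp (τ 0) (τ 1) (τ 2) (hne _ _ (by decide)) (hne _ _ (by decide))
    (hne _ _ (by decide)) with h | h
  · exact ⟨τ, h, m03, m13, m34, m45⟩
  · refine ⟨(Equiv.swap 1 2).trans τ, ?_, ?_, ?_, ?_, ?_⟩
    · have e0 : (Equiv.swap (1 : Fin 6) 2) 0 = 0 := by decide
      have e1 : (Equiv.swap (1 : Fin 6) 2) 1 = 2 := by decide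
      rw [Equiv.trans_apply, Equiv.trans_apply, e0, e1]
      exact h
    · have e0 : (Equiv.swap (1 : Fin 6) 2) 0 = 0 := by decide
      have e3 : (Equiv.swap (1 : Fin 6) 2) 3 = 3 := by decide
      rw [Equiv.trans_apply, Equiv.trans_apply, e0, e3]
      exact m03
    · have e1 : (Equiv.swap (1 : Fin 6) 2) 1 = 2 := by decide
      have e3 : (Equiv.swap (1 : Fin 6) 2) 3 = 3 := by decide
      rw [Equiv.trans_apply, Equiv.trans_apply, e1, e3]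
      exact m23
    · have e4 : (Equiv.swap (1 : Fin 6) 2) 4 = 4 := by decide
      have e3 : (Equiv.swap (1 : Fin 6) 2) 3 = 3 := by decide
      rw [Equiv.trans_apply, Equiv.trans_apply, e3, e4]
      exact m34
    · have e4 : (Equiv.swap (1 : Fin 6) 2) 4 = 4 := by decide
      have e5 : (Equiv.swap (1 : Fin 6) 2) 5 = 5 := by decide
      rw [Equiv.trans_apply, Equiv.trans_apply, e4, e5]
      exact m45

/-- W6 for nodes such that the forms are isotropic -/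
theorem w6_gen (hemb : ST_EMB) (hfact : ST_FACT) (hnorm : ST_NORM)
    (hbra : ST_BRA) (hsub : ST_SUB) (hineq : ST_INEQ) (vs : Fin 6 → V3) (v7 : V3)
    (hind : ∀ i j k : Fin 6, i ≠ j → i ≠ k → j ≠ k → det3 (vs i) (vs j) (vs k) ≠ 0)
    (hiso : ∀ (N : TF) (y : Fin 6 → ℤ) (Y : ℤ), (∀ i, y i ≠ 0 ∧ ev N (vs i) = y i ^ 2) →
      disc N = Y ^ 2 → ∃ t : V3, t ≠ 0 ∧ ev N t = 0) (C : ℤ) (G : ℕ) : ∃ K : ℤ,
  ∀ n : ℕ, 1 ≤ n → ∀ N ∈ SN6 vs v7 C G n, ∃ s : Equiv.Perm (Fin 6),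
    Wit6 K G n (vs (s 0)) (vs (s 1)) ![vs (s 3), vs (s 4), vs (s 5)] N := by
  obtain ⟨M, hM1, hMv, hM7⟩ := w6_M vs v7
  set C1 : ℤ := |C| + 1 with hC1
  have hC1' : 1 ≤ C1 := by rw [hC1]; linarith [abs_nonneg C]
  set K0 : ℤ := 720 * M ^ 4 * C1 ^ 2 with hK0
  have hM3 : 1 ≤ M ^ 3 := one_le_pow₀ hM1
  have hM34 : M ^ 3 ≤ M ^ 4 := pow_le_pow_right₀ hM1 (by norm_num)
  have hC12 : 1 ≤ C1 ^ 2 := one_le_pow₀ hC1'
  have hK0' : 12 * M ^ 3 ≤ K0 := by rw [hK0]; nlinarith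
  have hK01 : 1 ≤ K0 := by linarith
  obtain ⟨K', hK', hine⟩ := hineq K0 hK01
  set K : ℤ := 16 + 4 * K0 + K' with hK
  refine ⟨K, ?_⟩
  intro n hn N hN
  obtain ⟨hco, ⟨y, hy, hG⟩, hv7, ⟨Y, hY0, hY⟩, hpol⟩ := hN
  have hn1 : (1 : ℤ) ≤ (n : ℤ) := by exact_mod_cast hn
  have hn2 : (1 : ℤ) ≤ (n : ℤ) ^ 2 := one_le_pow₀ hn1
  have hn0 : (0 : ℤ) ≤ (n : ℤ) ^ 2 := by linarith
  have hCC : C * (n : ℤ) ^ 2 ≤ C1 * (n : ℤ) ^ 2 := by
    apply mul_le_mul_of_nonneg_right _ hn0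
    rw [hC1]; linarith [le_abs_self C]
  have hco' : |tfa N| ≤ C1 * (n : ℤ) ^ 2 ∧ |tfb N| ≤ C1 * (n : ℤ) ^ 2 ∧
      |tfh N| ≤ C1 * (n : ℤ) ^ 2 ∧ |tfk N| ≤ C1 * (n : ℤ) ^ 2 ∧ |tfd N| ≤ C1 * (n : ℤ) ^ 2 ∧
      |tfe N| ≤ C1 * (n : ℤ) ^ 2 := by
    obtain ⟨h1, h2, h3, h4, h5, h6⟩ := hco
    exact ⟨by linarith, by linarith, by linarith, by linarith, by linarith, by linarith⟩
  have hbd := fun u => w6_bound (C1 * (n : ℤ) ^ 2) M N (vs u) v7 hco' (hMv u) hM7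
  -- embedding
  obtain ⟨α, β, γ, hrep⟩ := hemb N Y (hiso N y Y hy hY) hY hY0
  -- factors
  have hf : ∀ u : Fin 6, ∃ l l' m m' : ℤ, IsCoprime l l' ∧ l * m = lin α (vs u) ∧
      l * m' + l' * m = 2 * lin β (vs u) ∧ l' * m' = lin γ (vs u) ∧
      |bq (lin α v7) (lin β v7) (lin γ v7) (-l') l| ≤
        |bq (lin α v7) (lin β v7) (lin γ v7) (-m') m| := by
    intro u
    exact wit_fact hfact N α β γ hrep (vs u) v7 (y u) (hy u).1 (hy u).2
  choose l l' m m' hcop h1 h2 h3 hQle using hf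
  set Q : Fin 6 → ℤ := fun u => |bq (lin α v7) (lin β v7) (lin γ v7) (-l' u) (l u)| with hQ
  have hV : lin α v7 * lin γ v7 - lin β v7 ^ 2 = -ev N v7 := by
    rw [hrep v7]; ring
  have hVn : (n : ℤ) ^ 2 ≤ lin α v7 * lin γ v7 - lin β v7 ^ 2 := by rw [hV]; linarith
  have hQpos : ∀ u, 0 < Q u := by
    intro u
    apply wit_pos _ _ _ _ _ (by linarith)
    by_contra hcon
    push Not at hcon
    obtain ⟨hc1, hc2⟩ := hcon
    have hc3 : l' u = 0 := by linarith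
    have := hcop u
    rw [hc2, hc3] at this
    exact (not_isCoprime_zero_zero this)
  have hQm : ∀ u, Q u * |bq (lin α v7) (lin β v7) (lin γ v7) (-m' u) (m u)| ≤
      K0 * (n : ℤ) ^ 4 := by
    intro u
    have h4 := hbra N α β γ hrep (vs u) v7 (l u) (l' u) (m u) (m' u) (h1 u) (h2 u) (h3 u)
    have h5 := w6_prod _ _ _ _ _ _ (hbd u).1 (hbd u).2.1 (hbd u).2.2 h4
    refine le_trans h5 (le_of_eq ?_)
    rw [hK0]; ring
  have hQK : ∀ u, Q u ≤ K0 * (n : ℤ) ^ 2 := by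
    intro u
    apply wit_sq (Q u) _ K0 ((n : ℤ) ^ 2) (hQpos u).le hK01 hn0 (hQle u)
    have := hQm u
    rw [← pow_mul]
    exact this
  -- the roots
  have hfr : ∀ u, bq (lin α (vs u)) (lin β (vs u)) (lin γ (vs u)) (-l' u) (l u) = 0 := by
    intro u
    simp only [bq]
    rw [← h1 u, ← h2 u, ← h3 u]
    ring
  obtain ⟨σ, hang, hQ03, hQ13, hQ34, hQ45⟩ := w6_sort Q
    (fun a b => |bq (lin α v7) (lin β v7) (lin γ v7) (-l' a) (l a)| ≤
      2 * (6 * (M * M * M)) * |bq (lin α (vs b)) (lin β (vs b)) (lin γ (vs b)) (-l' a) (l a)|)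
    (fun a b b' hab hab' hbb' => w6_angle α β γ (vs a) (vs b) (vs b') v7 _ _ _
      (hind a b b' hab hab' hbb') (w6_det M _ _ _ (hMv a) (hMv b') hM7)
      (w6_det M _ _ _ (hMv a) (hMv b) hM7) (hfr a))
  have hσne : ∀ x x' : Fin 6, x ≠ x' → σ x ≠ σ x' := fun x x' hx h => hx (σ.injective h)
  set a : Fin 6 := σ 0 with ha
  set b : Fin 6 := σ 1 with hb
  have hba : b ≠ a := hσne 1 0 (by decide)
  have hfa := hfr a
  have hfb : bq (lin α (vs b)) (lin β (vs b)) (lin γ (vs b)) (-l' a) (l a) =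
      (l a * l' b - l' a * l b) * (l a * m' b - l' a * m b) := by
    simp only [bq]
    rw [← h1 b, ← h2 b, ← h3 b]
    ring
  have hdet : l a * l' b - l' a * l b ≠ 0 := by
    intro h0
    rw [hfb, h0, zero_mul, abs_zero, mul_zero] at hang
    have := hQpos a
    simp only [hQ] at this
    linarith
  obtain ⟨g11, g12, g21, g22, s, D, κ, hg, hga, hs, hD, hκ, hκ0, hκD⟩ :=
    hnorm (l a) (l' a) (l b) (l' b) (hcop a) (hcop b) hdet
  have hD0 : 0 < D := by linarith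
  have hs2 : s * s = 1 := by rcases hs with rfl | rfl <;> norm_num
  obtain ⟨α', β', γ', hrep', hnew⟩ := hsub N α β γ hrep g11 g12 g21 g22 hg
  -- the new factors
  set P : Fin 6 → ℤ := fun u => l u * g11 + l' u * g21 with hP
  set P' : Fin 6 → ℤ := fun u => l u * g12 + l' u * g22 with hP'
  set R : Fin 6 → ℤ := fun u => m u * g11 + m' u * g21 with hR
  set R' : Fin 6 → ℤ := fun u => m u * g12 + m' u * g22 with hR'
  have e1 : ∀ u, P u * R u = lin α' (vs u) := by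
    intro u
    rw [(hnew (vs u)).1]
    simp only [bq, hP, hR]
    rw [← h1 u, ← h2 u, ← h3 u]
    ring
  have e2 : ∀ u, P u * R' u + P' u * R u = 2 * lin β' (vs u) := by
    intro u
    rw [(hnew (vs u)).2.1]
    have h4 : 2 * (lin α (vs u) * (g11 * g12) + lin β (vs u) * (g11 * g22 + g12 * g21) +
        lin γ (vs u) * (g21 * g22)) = 2 * lin α (vs u) * (g11 * g12) +
        (2 * lin β (vs u)) * (g11 * g22 + g12 * g21) + 2 * lin γ (vs u) * (g21 * g22) := by ring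
    rw [h4, ← h1 u, ← h2 u, ← h3 u]
    simp only [hP, hP', hR, hR']
    ring
  have e3 : ∀ u, P' u * R' u = lin γ' (vs u) := by
    intro u
    rw [(hnew (vs u)).2.2.1]
    simp only [bq, hP', hR']
    rw [← h1 u, ← h2 u, ← h3 u]
    ring
  have eq : ∀ (t : V3) (x x' : ℤ), bq (lin α' t) (lin β' t) (lin γ' t)
      (-(x * g12 + x' * g22)) (x * g11 + x' * g21) =
        bq (lin α t) (lin β t) (lin γ t) (-x') x := by
    intro t x x'
    rw [(hnew t).2.2.2]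
    congr 1
    · linear_combination (-x') * hg
    · linear_combination x * hg
  set a6 := lin α' v7 with ha6
  set b6 := lin β' v7 with hb6
  set c6 := lin γ' v7 with hc6
  have hQn : ∀ u, |bq a6 b6 c6 (-P' u) (P u)| = Q u := by
    intro u
    simp only [hQ, hP, hP', ha6, hb6, hc6]
    rw [eq]
  have hQn' : ∀ u, |bq a6 b6 c6 (-R' u) (R u)| =
      |bq (lin α v7) (lin β v7) (lin γ v7) (-m' u) (m u)| := by
    intro u
    simp only [hR, hR', ha6, hb6, hc6]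
    rw [eq]
  have hPa : P a = 0 := hga
  have hPa' : P' a ^ 2 = 1 := by
    have h4 : l a = -(P' a * g21) := by
      simp only [hP']
      linear_combination (-l a) * hg + g22 * hga
    have h5 : l' a = P' a * g11 := by
      simp only [hP']
      linear_combination (-l' a) * hg - g12 * hga
    have h6 := hcop a
    obtain ⟨x, y, hxy⟩ := h6
    have h7 : P' a * (-(x * g21) + y * g11) = 1 := by
      rw [← hxy, h4, h5]; ring
    rcases Int.eq_one_or_neg_one_of_mul_eq_one h7 with h8 | h8 <;> rw [h8] <;> norm_num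
  -- values at the root of the smallest factor
  have hfz : ∀ t : V3, lin α' t = bq (lin α t) (lin β t) (lin γ t) (-l' a) (l a) := by
    intro t
    rw [← eq t (l a) (l' a)]
    have h4 : l a * g11 + l' a * g21 = 0 := hga
    have h5 : (l a * g12 + l' a * g22) ^ 2 = 1 := hPa'
    rw [h4]
    simp only [bq]
    linear_combination (-(lin α' t)) * h5
  have hQa : |a6| = Q a := by
    rw [ha6, hfz]
  have hαa : lin α' (vs a) = 0 := by rw [hfz, hfa]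
  have hPb : P b = s * D := by
    rw [← hD, ← mul_assoc, hs2, one_mul]
  have hPb' : P' b = -(s * κ) := by
    have : s * (s * (l b * g12 + l' b * g22)) = s * (-κ) := by rw [hκ]
    rw [← mul_assoc, hs2, one_mul] at this
    simp only [hP']
    linarith only [this]
  have hkD : IsCoprime κ D := by
    obtain ⟨x, y, hxy⟩ := hcop b
    have h4 : l b = P b * g22 - P' b * g21 := by
      simp only [hP, hP']
      linear_combination (-l b) * hg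
    have h5 : l' b = P' b * g11 - P b * g12 := by
      simp only [hP, hP']
      linear_combination (-l' b) * hg
    refine ⟨s * (x * g21 - y * g11), s * (x * g22 - y * g12), ?_⟩
    rw [← hxy, h4, h5, hPb, hPb']
    ring
  -- nonvanishing
  have hnz : ∀ t u : Fin 6, t ≠ u → bq (lin α' (vs u)) (lin β' (vs u)) (lin γ' (vs u))
      (-P' t) (P t) ≠ 0 := by
    intro t u htu h0
    have h4 := hbra N α' β' γ' hrep' (vs t) (vs u) (P t) (P' t) (R t) (R' t) (e1 t) (e2 t) (e3 t)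
    rw [h0, zero_mul] at h4
    exact hpol t u htu (by linarith only [h4])
  have hnza : ∀ u, u ≠ a → lin α' (vs u) ≠ 0 := by
    intro u hu h0
    apply hnz a u (Ne.symm hu)
    rw [hPa, h0]
    simp [bq]
  have hsqt : ∀ (t : V3) (x x' : ℤ), bq (lin α' t) (lin β' t) (lin γ' t) (s * x') (s * x) =
      bq (lin α' t) (lin β' t) (lin γ' t) x' x := by
    intro t x x'
    simp only [bq]
    linear_combination (lin α' t * x' ^ 2 + 2 * lin β' t * x' * x + lin γ' t * x ^ 2) * hs2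
  have hnzb : ∀ u, u ≠ b → bq (lin α' (vs u)) (lin β' (vs u)) (lin γ' (vs u)) κ D ≠ 0 := by
    intro u hu h0
    apply hnz b u (Ne.symm hu)
    rw [hPb, hPb', neg_neg, hsqt, h0]
  -- the inequalities
  have hQb : |bq a6 b6 c6 κ D| = Q b := by
    rw [← hQn b, hPb, hPb', neg_neg, ha6, hb6, hc6, hsqt]
  have hQb' : |bq a6 b6 c6 (-(s * R' b)) (s * R b)| =
      |bq (lin α v7) (lin β v7) (lin γ v7) (-m' b) (m b)| := by
    rw [← hQn' b]
    have : -(s * R' b) = s * (-R' b) := by ring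
    rw [this, ha6, hb6, hc6, hsqt]
  have hV' : (n : ℤ) ^ 2 ≤ a6 * c6 - b6 ^ 2 := by
    have := hrep' v7
    rw [← ha6, ← hb6, ← hc6] at this
    linarith only [this, hv7]
  have hDrb : D * (s * R b) = lin α' (vs b) := by
    rw [← e1 b, hPb]; ring
  have hang' : |a6| ≤ K0 * |D * (s * R b)| := by
    rw [hDrb, hQa, hfz]
    refine le_trans hang ?_
    refine mul_le_mul_of_nonneg_right ?_ (abs_nonneg _)
    refine le_trans (le_of_eq ?_) hK0'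
    ring
  obtain ⟨i1, -, -⟩ := hine n a6 b6 c6 D κ (s * R b) (s * R' b) hn hV' hD0
    (by rw [hQb, hQb']; exact hQm b) hang'
  rw [hQa, hQb] at i1
  -- the class data
  set ρ : Fin 3 → Fin 6 := ![σ 3, σ 4, σ 5] with hρ
  have hvu : ∀ u, (![vs (σ 3), vs (σ 4), vs (σ 5)] : Fin 3 → V3) u = vs (ρ u) := by
    intro u
    fin_cases u <;> rfl
  have hρa : ∀ u, ρ u ≠ a := by
    intro u
    fin_cases u
    · exact hσne 3 0 (by decide)
    · exact hσne 4 0 (by decide)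
    · exact hσne 5 0 (by decide)
  have hρb : ∀ u, ρ u ≠ b := by
    intro u
    fin_cases u
    · exact hσne 3 1 (by decide)
    · exact hσne 4 1 (by decide)
    · exact hσne 5 1 (by decide)
  set vu : Fin 3 → V3 := ![vs (σ 3), vs (σ 4), vs (σ 5)] with hvud
  set x : P6 := (fun u => P (ρ u), fun u => R (ρ u)) with hx
  set z : P6 := (fun u => P (ρ u) * κ + P' (ρ u) * D, fun u => R (ρ u) * κ + R' (ρ u) * D) with hz
  have hDn : ((D.toNat : ℕ) : ℤ) = D := Int.toNat_of_nonneg hD0.le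
  -- the quadratic relations
  have hdet3 : det3 (vu 0) (vu 1) (vu 2) ≠ 0 :=
    hind (σ 3) (σ 4) (σ 5) (hσne _ _ (by decide)) (hσne _ _ (by decide)) (hσne _ _ (by decide))
  have hqx : ∀ v : V3, qf (cf vu v) x = det3 (vu 0) (vu 1) (vu 2) * lin α' v := by
    intro v
    rw [← w6_cf]
    unfold qf
    refine Finset.sum_congr rfl fun u _ => ?_
    rw [hvu u]
    simp only [hx]
    rw [e1]
  have hqz : ∀ v : V3, qf (cf vu v) z = det3 (vu 0) (vu 1) (vu 2) *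
      bq (lin α' v) (lin β' v) (lin γ' v) κ D := by
    intro v
    rw [wit_bq_lin, ← w6_cf]
    unfold qf
    refine Finset.sum_congr rfl fun u _ => ?_
    rw [hvu u, ← wit_bq_lin]
    simp only [hz, bq]
    rw [← e1 (ρ u), ← e2 (ρ u), ← e3 (ρ u)]
    ring
  have hfbD : bq (lin α' (vs b)) (lin β' (vs b)) (lin γ' (vs b)) κ D = 0 := by
    have h4 : bq (lin α' (vs b)) (lin β' (vs b)) (lin γ' (vs b)) κ D =
        (P b * κ + P' b * D) * (R b * κ + R' b * D) := by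
      simp only [bq]
      rw [← e1 b, ← e2 b, ← e3 b]
      ring
    rw [h4, hPb, hPb']
    ring
  have hcl := fun u => w6_cl (Q u) (hQpos u)
  have hclm : ∀ u v, Q u ≤ Q v → Nat.log 4 (Q u).toNat ≤ Nat.log 4 (Q v).toNat := fun u v h =>
    Nat.log_mono_right (Int.toNat_le_toNat h)
  have hctx : ∀ m : ℤ, (∀ u, m ∣ P (ρ u) * R' (ρ u) - P' (ρ u) * R (ρ u)) → |m| ≤ 2 * G := by
    intro m hm
    have h4 : ∀ u, m ∣ 2 * y (ρ u) := fun u =>
      w6_2y _ _ _ _ _ _ _ _ (by rw [← hrep' (vs (ρ u))]; exact (hy (ρ u)).2)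
        (e1 (ρ u)) (e2 (ρ u)) (e3 (ρ u)) m (hm u)
    exact w6_ct G y hG (σ 3) (σ 4) (σ 5) (hσne _ _ (by decide)) (hσne _ _ (by decide))
      (hσne _ _ (by decide)) m (h4 0) (h4 1) (h4 2)
  have hQmρ : ∀ u, Q (ρ u) * |bq a6 b6 c6 (-R' (ρ u)) (R (ρ u))| ≤ K0 * (n : ℤ) ^ 4 := by
    intro u
    rw [hQn']
    exact hQm _
  have hKle : 16 + 4 * K0 ≤ K := by rw [hK]; linarith only [hK']
  have hNx : NP (cf vu (vs a)) (cf vu (vs b)) K G n (Nat.log 4 (Q a).toNat)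
      (fun u => Nat.log 4 (Q (ρ u)).toNat) x := by
    apply w6_mkNP _ _ K K0 G n _ _ x (Q a) (fun u => Q (ρ u))
      (fun u => |bq a6 b6 c6 (-R' (ρ u)) (R (ρ u))|) hn (by linarith) hKle
    · rw [hqx, hαa, mul_zero]
    · rw [hqx]
      exact mul_ne_zero hdet3 (hnza b hba)
    · intro u
      have h4 := hnza (ρ u) (hρa u)
      rw [← e1] at h4
      exact ⟨left_ne_zero_of_mul h4, right_ne_zero_of_mul h4⟩
    · exact (hQpos a).le
    · exact (hcl a).2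
    · intro u
      exact hcl (ρ u)
    · intro u
      have h4 := w6_cs n a6 b6 c6 1 0 (-P' (ρ u)) (P (ρ u)) hV'
      have h5 : bq a6 b6 c6 1 0 = a6 := by simp [bq]
      rw [h5, hQa, hQn] at h4
      have h6 : (1 * P (ρ u) - 0 * -P' (ρ u)) = P (ρ u) := by ring
      rw [h6] at h4
      exact h4
    · intro u
      have h4 := w6_cs n a6 b6 c6 1 0 (-R' (ρ u)) (R (ρ u)) hV'
      have h5 : bq a6 b6 c6 1 0 = a6 := by simp [bq]
      rw [h5, hQa] at h4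
      have h6 : (1 * R (ρ u) - 0 * -R' (ρ u)) = R (ρ u) := by ring
      rw [h6] at h4
      exact h4
    · exact hQmρ
    · intro m hm
      apply hctx m
      intro u
      exact dvd_sub (Dvd.dvd.mul_right (hm u).1 _) (Dvd.dvd.mul_left (hm u).2 _)
  have hNz : NP (cf vu (vs b)) (cf vu (vs a)) K G n (Nat.log 4 (Q b).toNat)
      (fun u => Nat.log 4 (Q (ρ u)).toNat) z := by
    apply w6_mkNP _ _ K K0 G n _ _ z (Q b) (fun u => Q (ρ u))
      (fun u => |bq a6 b6 c6 (-R' (ρ u)) (R (ρ u))|) hn (by linarith) hKle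
    · rw [hqz, hfbD, mul_zero]
    · rw [hqz]
      exact mul_ne_zero hdet3 (hnzb a (Ne.symm hba))
    · intro u
      have h4 := hnzb (ρ u) (hρb u)
      have h5 : bq (lin α' (vs (ρ u))) (lin β' (vs (ρ u))) (lin γ' (vs (ρ u))) κ D =
          (P (ρ u) * κ + P' (ρ u) * D) * (R (ρ u) * κ + R' (ρ u) * D) := by
        simp only [bq]
        rw [← e1 (ρ u), ← e2 (ρ u), ← e3 (ρ u)]
        ring
      rw [h5] at h4
      exact ⟨left_ne_zero_of_mul h4, right_ne_zero_of_mul h4⟩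
    · exact (hQpos b).le
    · exact (hcl b).2
    · intro u
      exact hcl (ρ u)
    · intro u
      have h4 := w6_cs n a6 b6 c6 κ D (-P' (ρ u)) (P (ρ u)) hV'
      rw [hQb, hQn] at h4
      have h6 : (κ * P (ρ u) - D * -P' (ρ u)) = P (ρ u) * κ + P' (ρ u) * D := by ring
      rw [h6] at h4
      exact h4
    · intro u
      have h4 := w6_cs n a6 b6 c6 κ D (-R' (ρ u)) (R (ρ u)) hV'
      rw [hQb] at h4
      have h6 : (κ * R (ρ u) - D * -R' (ρ u)) = R (ρ u) * κ + R' (ρ u) * D := by ring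
      rw [h6] at h4
      exact h4
    · exact hQmρ
    · intro m hm
      apply hctx m
      intro u
      obtain ⟨c, d, hcd⟩ := hkD
      have h4 : P (ρ u) * R' (ρ u) - P' (ρ u) * R (ρ u) =
          (c * R' (ρ u) - d * R (ρ u)) * (P (ρ u) * κ + P' (ρ u) * D) +
            (d * P (ρ u) - c * P' (ρ u)) * (R (ρ u) * κ + R' (ρ u) * D) := by
        linear_combination (-(P (ρ u) * R' (ρ u) - P' (ρ u) * R (ρ u))) * hcd
      rw [h4]
      exact dvd_add (Dvd.dvd.mul_left (hm u).1 _) (Dvd.dvd.mul_left (hm u).2 _)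
  refine ⟨σ, (D.toNat, κ, x, z), Nat.log 4 (Q a).toNat, Nat.log 4 (Q b).toNat,
    fun u => Nat.log 4 (Q (ρ u)).toNat, ?_, hclm _ _ hQ34, hclm _ _ hQ45, hclm _ _ hQ03,
    hclm _ _ hQ13, ?_, ?_⟩
  · refine ⟨α', β', γ', hrep', fun u => P' (ρ u), fun u => R' (ρ u), ?_, ?_⟩
    · intro u
      change lin α' (vu u) = P (ρ u) * R (ρ u) ∧
        2 * lin β' (vu u) = P (ρ u) * R' (ρ u) + P' (ρ u) * R (ρ u) ∧
        lin γ' (vu u) = P' (ρ u) * R' (ρ u)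
      rw [hvu u]
      exact ⟨(e1 _).symm, (e2 _).symm, (e3 _).symm⟩
    · intro u
      simp only [hDn]
      exact ⟨rfl, rfl⟩
  · refine le_trans (hcl (ρ 2)).1 (le_trans (hQK _) ?_)
    refine mul_le_mul_of_nonneg_right ?_ hn0
    linarith only [hK, hK', hK01]
  · constructor
    · have : 0 < D.toNat := by omega
      exact this
    · show (4 : ℤ) ^ (Nat.log 4 (Q a).toNat + Nat.log 4 (Q b).toNat) ≤
        K * ((D.toNat : ℕ) : ℤ) ^ 2 * (n : ℤ) ^ 2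
      rw [hDn, pow_add]
      have h4 : (4 : ℤ) ^ (Nat.log 4 (Q a).toNat) * 4 ^ (Nat.log 4 (Q b).toNat) ≤ Q a * Q b :=
        mul_le_mul (hcl a).1 (hcl b).1 (by positivity) (hQpos a).le
      refine le_trans h4 (le_trans i1 ?_)
      refine mul_le_mul_of_nonneg_right ?_ hn0
      refine mul_le_mul_of_nonneg_right ?_ (sq_nonneg D)
      linarith only [hK, hK01]
    · exact hκ0
    · show κ < ((D.toNat : ℕ) : ℤ)
      rw [hDn]; exact hκD
    · show IsCoprime κ ((D.toNat : ℕ) : ℤ)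
      rw [hDn]; exact hkD
    · exact hNx
    · exact hNz
    · show ((D.toNat : ℕ) : ℤ) ∣ qf (cf vu (vs b)) x
      rw [hDn, hqx, ← hDrb]
      exact Dvd.dvd.mul_left (Dvd.intro _ rfl) _
    · show ((D.toNat : ℕ) : ℤ) ∣ qf (cf vu (vs a)) z
      rw [hDn, hqz]
      refine Dvd.dvd.mul_left ?_ _
      simp only [bq]
      rw [hαa]
      exact ⟨2 * lin β' (vs a) * κ + lin γ' (vs a) * D, by ring⟩
    · intro u
      show ((D.toNat : ℕ) : ℤ) ∣ (P (ρ u) * κ + P' (ρ u) * D) - κ * P (ρ u) ∧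
        ((D.toNat : ℕ) : ℤ) ∣ (R (ρ u) * κ + R' (ρ u) * D) - κ * R (ρ u)
      rw [hDn]
      exact ⟨⟨P' (ρ u), by ring⟩, ⟨R' (ρ u), by ring⟩⟩

theorem st_W6 (hemb : ST_EMB) (hfact : ST_FACT) (hnorm : ST_NORM)
    (hbra : ST_BRA) (hsub : ST_SUB) (hineq : ST_INEQ) : ST_W6 := by
  intro vs v7 hnodes C G
  obtain ⟨⟨i0, hi0⟩, hind⟩ := hnodes
  refine w6_gen hemb hfact hnorm hbra hsub hineq vs v7 hind ?_ C G
  intro N y Y hy hY
  exact iso6 N (vs i0) (y i0) Y hi0 (hy i0).2 (hy i0).1 hY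

end Pool.Helper13.R6
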