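import Pool.Agent.Helper67.R6.Fam

/-! # Rows CERT and EXN of the family part (MP_798d7d_nt, rank six) -/

set_option autoImplicit false

namespace Pool.Helper67.R6

open Pool.Agent.Helper97.RK (cur)
open Pool.Helper17.R5 (det3)

/-- row EXN -/
theorem st_EXN : ST_EXN := by
  intro h C ε hε
  refine h vs v7 ⟨⟨0, rfl⟩, ?_⟩ C 1 ε hε
  decide

/-- the roots at the base -/
def fcY : Fin 6 → ℤ := ![13, 13, 23, 19, 17, 7]
def fcI : Fin 6 → Fin 6 := ![0, 0, 0, 0, 1, 2]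
def fcJ : Fin 6 → Fin 6 := ![2, 3, 3, 4, 2, 5]
def fcs : Fin 6 → ℤ := ![-1, 1, -1, -1, 1, -1]
def fcx : Fin 6 → ℤ := ![206, 27, 274, 137, -67, 43]
/-- `5 · 7 · 13 · 17 · 19 · 23 · 29` -/
def fcP : ℤ := 98025655

theorem fc_z {M : ℤ} (q : ℕ) (hq : (q : ℤ) ∣ M) {a b : ℤ} (h : a ≡ b [ZMOD M]) :
    (a : ZMod q) = (b : ZMod q) :=
  (ZMod.intCast_eq_intCast_iff a b q).2 (h.of_dvd hq)

theorem fc_of {n a b c : ℤ} (h : a ≡ b [ZMOD n]) (e : b = c) : a ≡ c [ZMOD n] := e ▸ h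

theorem fc_me {F a b : ℤ} (h : F ∣ a - b) : a ≡ b [ZMOD F] := (Int.modEq_iff_dvd.2 h).symm

theorem fc_vals (F : ℤ) (w : Par) (hY : ∀ i, F ∣ YY w i - fcY i) (ha : F ∣ ca w - 3)
    (hb : F ∣ cb w - 22) (hc : F ∣ cc w + 9) (hd : F ∣ cd w + 118) (he : F ∣ ce w - 289) :
    aA w ≡ -6307 [ZMOD F] ∧ aB w ≡ 219250 [ZMOD F] ∧ ∀ (i j : Fin 6) (s : ℤ),
      xn w i j s ≡ 2 * 3 * xi i ^ 2 * xi j ^ 2 + 22 * xi i * xi j * (xi i + xi j) +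
        (-9) * (xi i ^ 2 + 4 * xi i * xi j + xi j ^ 2) + (-118) * (xi i + xi j) + 2 * 289 -
        2 * s * fcY i * fcY j [ZMOD F] := by
  have a1 : ca w ≡ 3 [ZMOD F] := fc_me ha
  have b1 : cb w ≡ 22 [ZMOD F] := fc_me hb
  have c1 : cc w ≡ -9 [ZMOD F] := fc_me (by rw [sub_neg_eq_add]; exact hc)
  have d1 : cd w ≡ -118 [ZMOD F] := fc_me (by rw [sub_neg_eq_add]; exact hd)
  have e1 : ce w ≡ 289 [ZMOD F] := fc_me he
  have y1 : ∀ i, YY w i ≡ fcY i [ZMOD F] := fun i => fc_me (hY i)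
  refine ⟨?_, ?_, ?_⟩
  · unfold aA
    exact fc_of (((((Int.ModEq.refl 4).mul a1).mul e1).sub (b1.mul d1)).add
      ((Int.ModEq.refl 3).mul (c1.pow 2))).neg (by norm_num)
  · unfold aB
    exact fc_of (((((a1.mul (d1.pow 2)).add (e1.mul (b1.pow 2))).sub ((b1.mul d1).mul c1)).sub
      ((((Int.ModEq.refl 8).mul a1).mul c1).mul e1)).add
      ((Int.ModEq.refl 2).mul (c1.pow 3))) (by norm_num)
  · intro i j s
    unfold xn
    exact (((((((Int.ModEq.refl 2).mul a1).mul (Int.ModEq.refl (xi i ^ 2))).mul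
      (Int.ModEq.refl (xi j ^ 2))).add
      (((b1.mul (Int.ModEq.refl (xi i))).mul (Int.ModEq.refl (xi j))).mul
        (Int.ModEq.refl (xi i + xi j)))).add
      (c1.mul (Int.ModEq.refl (xi i ^ 2 + 4 * xi i * xi j + xi j ^ 2)))).add
      (d1.mul (Int.ModEq.refl (xi i + xi j)))).add ((Int.ModEq.refl 2).mul e1) |>.sub
      (((Int.ModEq.refl (2 * s)).mul (y1 i)).mul (y1 j))

theorem fc_base : ∀ i : Fin 6,
    2 * 3 * xi (fcI i) ^ 2 * xi (fcJ i) ^ 2 +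
      22 * xi (fcI i) * xi (fcJ i) * (xi (fcI i) + xi (fcJ i)) +
      (-9) * (xi (fcI i) ^ 2 + 4 * xi (fcI i) * xi (fcJ i) + xi (fcJ i) ^ 2) +
      (-118) * (xi (fcI i) + xi (fcJ i)) + 2 * 289 - 2 * fcs i * fcY (fcI i) * fcY (fcJ i) =
      (xi (fcI i) - xi (fcJ i)) ^ 2 * fcx i := by
  decide

theorem fc_x (P D x0 X : ℤ) (h : X ≡ D * x0 [ZMOD D * P]) :
    ∃ x, D * x = X ∧ x ≡ x0 [ZMOD P] := by
  obtain ⟨k, hk⟩ := Int.modEq_iff_dvd.1 h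
  refine ⟨x0 - P * k, ?_, Int.modEq_iff_dvd.2 ⟨k, by ring⟩⟩
  linarith

theorem fc_dvd : (36 * fcP : ℤ) ∣ ((QQ.factorial : ℕ) : ℤ) := by
  have h1 : Nat.factorial 30 ∣ QQ.factorial := Nat.factorial_dvd_factorial (by unfold QQ; norm_num)
  have h2 : (36 * 98025655 : ℕ) ∣ Nat.factorial 30 := by decide +kernel
  have h3 : ((36 * 98025655 : ℕ) : ℤ) ∣ ((QQ.factorial : ℕ) : ℤ) :=
    Int.natCast_dvd_natCast.2 (h2.trans h1)
  have h4 : (36 * fcP : ℤ) = ((36 * 98025655 : ℕ) : ℤ) := by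
    unfold fcP; norm_num
  rw [h4]
  exact h3

theorem fc_Ddvd : ∀ i : Fin 6, (xi (fcI i) - xi (fcJ i)) ^ 2 ∣ 36 := by
  decide

theorem fc_dec6 : ∀ S : Finset (Fin 6), S.Nonempty →
    ¬ IsSquare (∏ i ∈ S, ((fcx i - 0 : ℤ) : ZMod 5)) ∨
    ¬ IsSquare (∏ i ∈ S, ((fcx i - 3 : ℤ) : ZMod 13)) ∨
    ¬ IsSquare (∏ i ∈ S, ((fcx i - 16 : ℤ) : ZMod 17)) ∨
    ¬ IsSquare (∏ i ∈ S, ((fcx i - 2 : ℤ) : ZMod 19)) ∨
    ¬ IsSquare (∏ i ∈ S, ((fcx i - 7 : ℤ) : ZMod 23)) ∨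
    ¬ IsSquare (∏ i ∈ S, ((fcx i - 10 : ℤ) : ZMod 29)) := by
  decide +kernel

theorem fc_seven (t : ZMod 7) : t ^ 3 + ((-6307 : ℤ) : ZMod 7) * t + ((219250 : ℤ) : ZMod 7) ≠ 0 := by
  revert t
  decide

theorem fc_step (A B : ℤ) (x : Fin 6 → ℤ) (hA : A ≡ -6307 [ZMOD fcP])
    (hB : B ≡ 219250 [ZMOD fcP]) (hx : ∀ i, x i ≡ fcx i [ZMOD fcP]) (S : Finset (Fin 6)) (q : ℕ)
    (e : ℤ) (hqp : q.Prime) (hq : (q : ℤ) ∣ fcP)
    (h1 : ((e ^ 3 + (-6307) * e + 219250 : ℤ) : ZMod q) = 0)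
    (h2 : ((3 * e ^ 2 + (-6307) : ℤ) : ZMod q) ≠ 0)
    (h3 : ¬ IsSquare (∏ i ∈ S, ((fcx i - e : ℤ) : ZMod q))) :
    ∃ (q : ℕ) (e : ℤ), q.Prime ∧
      ((e ^ 3 + A * e + B : ℤ) : ZMod q) = 0 ∧ ((3 * e ^ 2 + A : ℤ) : ZMod q) ≠ 0 ∧
      ¬ IsSquare (∏ i ∈ S, ((x i - e : ℤ) : ZMod q)) := by
  refine ⟨q, e, hqp, ?_, ?_, ?_⟩
  · rw [← h1]
    exact fc_z q hq (((Int.ModEq.refl (e ^ 3)).add (hA.mul (Int.ModEq.refl e))).add hB)
  · intro h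
    apply h2
    rw [← h]
    exact fc_z q hq (((Int.ModEq.refl (3 * e ^ 2)).add hA).symm)
  · intro h
    apply h3
    refine (congrArg IsSquare ?_).mp h
    apply Finset.prod_congr rfl
    intro i _
    exact fc_z q hq ((hx i).sub (Int.ModEq.refl e))

theorem fc_all (A B : ℤ) (x : Fin 6 → ℤ) (hA : A ≡ -6307 [ZMOD fcP])
    (hB : B ≡ 219250 [ZMOD fcP]) (hx : ∀ i, x i ≡ fcx i [ZMOD fcP]) (S : Finset (Fin 6))
    (hS : S.Nonempty) :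
    ∃ (q : ℕ) (e : ℤ), q.Prime ∧
      ((e ^ 3 + A * e + B : ℤ) : ZMod q) = 0 ∧ ((3 * e ^ 2 + A : ℤ) : ZMod q) ≠ 0 ∧
      ¬ IsSquare (∏ i ∈ S, ((x i - e : ℤ) : ZMod q)) := by
  rcases fc_dec6 S hS with h | h | h | h | h | h
  · exact fc_step A B x hA hB hx S 5 0 (by norm_num) (by unfold fcP; norm_num) (by decide)
      (by decide) h
  · exact fc_step A B x hA hB hx S 13 3 (by norm_num) (by unfold fcP; norm_num) (by decide)
      (by decide) h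
  · exact fc_step A B x hA hB hx S 17 16 (by norm_num) (by unfold fcP; norm_num) (by decide)
      (by decide) h
  · exact fc_step A B x hA hB hx S 19 2 (by norm_num) (by unfold fcP; norm_num) (by decide)
      (by decide) h
  · exact fc_step A B x hA hB hx S 23 7 (by norm_num) (by unfold fcP; norm_num) (by decide)
      (by decide) h
  · exact fc_step A B x hA hB hx S 29 10 (by norm_num) (by unfold fcP; norm_num) (by decide)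
      (by decide) h

theorem fc_gcd : ∀ i j k : Fin 6, i ≠ j → i ≠ k → j ≠ k →
    Int.gcd (fcY i) ((Int.gcd (fcY j) (fcY k) : ℕ) : ℤ) = 1 := by
  decide

/-- row CERT -/
theorem st_CERT (hR : Pool.Agent.Helper97.RK.ST_RANK) (hREL : ST_REL) (hPTS : ST_PTS) :
    ST_CERT := by
  intro w hw
  obtain ⟨-, -, ⟨hY, ha, hb, hc, hd, he⟩, -, -⟩ := hREL w hw
  obtain ⟨hA, hB, hxn⟩ := fc_vals _ w hY ha hb hc hd he
  have hPd : fcP ∣ ((QQ.factorial : ℕ) : ℤ) := (Dvd.intro_left 36 rfl).trans fc_dvd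
  have hA1 : aA w ≡ -6307 [ZMOD fcP] := hA.of_dvd hPd
  have hB1 : aB w ≡ 219250 [ZMOD fcP] := hB.of_dvd hPd
  have hqF : ∀ q : ℕ, q.Prime → q ≤ QQ → (q : ℤ) ∣ ((QQ.factorial : ℕ) : ℤ) := fun q hq hle =>
    Int.natCast_dvd_natCast.2 (Nat.dvd_factorial hq.pos hle)
  have hone : ∀ q : ℕ, q.Prime → ¬ (q : ℤ) ∣ 1 := by
    intro q hq h
    have h2 : q ∣ 1 := by exact_mod_cast h
    exact hq.one_lt.ne' (Nat.dvd_one.1 h2)
  have h5P : ((5 : ℕ) : ℤ) ∣ fcP := by unfold fcP; norm_num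
  have h7P : ((7 : ℕ) : ℤ) ∣ fcP := by unfold fcP; norm_num
  have hdisc : 4 * aA w ^ 3 + 27 * aB w ^ 2 ≠ 0 := by
    intro h
    have h3 : 4 * aA w ^ 3 + 27 * aB w ^ 2 ≡
        4 * (-6307) ^ 3 + 27 * 219250 ^ 2 [ZMOD 5] :=
      (((Int.ModEq.refl 4).mul ((hA1.of_dvd h5P).pow 3)).add
        ((Int.ModEq.refl 27).mul ((hB1.of_dvd h5P).pow 2)))
    rw [h] at h3
    revert h3
    decide
  have h7 : ∀ t : ZMod 7, t ^ 3 + (aA w : ZMod 7) * t + (aB w : ZMod 7) ≠ 0 := by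
    intro t
    rw [fc_z 7 h7P hA1, fc_z 7 h7P hB1]
    exact fc_seven t
  refine ⟨hdisc, ?_, ?_, ?_⟩
  · intro q hq hle hdv
    obtain ⟨hda, hdb⟩ := hdv
    have hqM := hqF q hq hle
    have ha' : (q : ℤ) ∣ -6307 := (hA.of_dvd hqM).dvd_iff.1 hda
    have hb' : (q : ℤ) ∣ 219250 := (hB.of_dvd hqM).dvd_iff.1 hdb
    have e2 : IsCoprime (-6307 : ℤ) 219250 := by
      rw [Int.isCoprime_iff_gcd_eq_one]
      decide
    obtain ⟨a, b, hab⟩ := e2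
    apply hone q hq
    rw [← hab]
    exact dvd_add (ha'.mul_left a) (hb'.mul_left b)
  · intro q hq hle i j k hij hik hjk hdv
    obtain ⟨hi, hj, hk⟩ := hdv
    have hqM := hqF q hq hle
    have hb : ∀ u, (q : ℤ) ∣ YY w u → (q : ℤ) ∣ fcY u := fun u hu =>
      ((fc_me (hY u)).of_dvd hqM).dvd_iff.1 hu
    have h1 : (q : ℤ) ∣ ((Int.gcd (fcY i) ((Int.gcd (fcY j) (fcY k) : ℕ) : ℤ) : ℕ) : ℤ) :=
      Int.dvd_coe_gcd (hb i hi) (Int.dvd_coe_gcd (hb j hj) (hb k hk))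
    rw [fc_gcd i j k hij hik hjk] at h1
    exact hone q hq (by exact_mod_cast h1)
  · have hx : ∀ i : Fin 6, ∃ x : ℤ, (xi (fcI i) - xi (fcJ i)) ^ 2 * x =
        xn w (fcI i) (fcJ i) (fcs i) ∧ x ≡ fcx i [ZMOD fcP] := by
      intro i
      apply fc_x
      rw [← fc_base i]
      refine (hxn (fcI i) (fcJ i) (fcs i)).of_dvd ?_
      exact (mul_dvd_mul_right (fc_Ddvd i) fcP).trans fc_dvd
    choose x hx1 hx2 using hx
    have hIJ : ∀ i : Fin 6, fcI i ≠ fcJ i := by decide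
    have hs : ∀ i : Fin 6, fcs i = 1 ∨ fcs i = -1 := by decide
    have hp := fun i => hPTS w hw (fcI i) (fcJ i) (hIJ i) (fcs i) (x i) (hs i) (hx1 i)
    choose Y hYY using hp
    exact hR 6 _ _ x Y hYY hdisc 7 h7 fun S hS => fc_all _ _ x hA1 hB1 hx2 S hS

end Pool.Helper67.R6
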