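import Pool.Agent.Helper13.R6.SheetB

/-! # Link (MP_798d7d_nt, rank six): the forms of the family part are among those of EX6 -/

set_option autoImplicit false

namespace Pool.Helper76.R6

open Pool.Helper17.R5 (V3 TF tfa tfb tfh tfk tfd tfe ev pol disc lin det3)
open Pool.Helper13.R6

/-- the nodes `1, 2, 3, -1, -2, -3` -/
def vv6 : Fin 6 → V3 := ![(1, 1, 1), (4, 2, 1), (9, 3, 1), (1, -1, 1), (4, -2, 1), (9, -3, 1)]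

/-- the forms of the family part -/
def SF6 (C : ℤ) (n : ℕ) : Set TF :=
  {N | (|tfa N| ≤ C * (n : ℤ) ^ 2 ∧ |tfb N| ≤ C * (n : ℤ) ^ 2 ∧ |tfh N| ≤ C * (n : ℤ) ^ 2 ∧
      |tfk N| ≤ C * (n : ℤ) ^ 2 ∧ |tfd N| ≤ C * (n : ℤ) ^ 2 ∧ |tfe N| ≤ C * (n : ℤ) ^ 2) ∧
    (∀ i : Fin 6, ∃ y : ℤ, y ≠ 0 ∧ ev N (vv6 i) = y ^ 2) ∧
    ev N (1, 0, 0) ≤ -(n : ℤ) ^ 2 ∧ (∃ Y : ℤ, Y ≠ 0 ∧ disc N = Y ^ 2) ∧
    (∀ i j : Fin 6, i ≠ j → pol N (vv6 i) (vv6 j) ^ 2 ≠ 4 * ev N (vv6 i) * ev N (vv6 j)) ∧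
    ∀ q : ℕ, q.Prime → ∀ i j k : Fin 6, i ≠ j → i ≠ k → j ≠ k →
      ¬ ((q : ℤ) ∣ ev N (vv6 i) ∧ (q : ℤ) ∣ ev N (vv6 j) ∧ (q : ℤ) ∣ ev N (vv6 k))}

theorem nodes_vv6 : (∃ i, (vv6 i).2.2 = 1) ∧
    ∀ i j k : Fin 6, i ≠ j → i ≠ k → j ≠ k → det3 (vv6 i) (vv6 j) (vv6 k) ≠ 0 := by
  refine ⟨⟨0, rfl⟩, ?_⟩
  decide

theorem sf6_subset (C : ℤ) (n : ℕ) : SF6 C n ⊆ SN6 vv6 (1, 0, 0) C 1 n := by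
  rintro N ⟨hco, hsq, hv, hd, hp, hq⟩
  choose y hy using hsq
  refine ⟨hco, ⟨y, hy, ?_⟩, hv, hd, hp⟩
  intro m i j k hij hik hjk hi hj hk
  by_contra hm
  have h1 : m.natAbs ≠ 1 := by
    intro h
    apply hm
    rw [Int.abs_eq_natAbs, h]
  obtain ⟨q, hq1, hq2⟩ := Nat.exists_prime_and_dvd h1
  have h2 : (q : ℤ) ∣ m := Int.natCast_dvd.2 hq2
  have h3 : ∀ u, m ∣ y u → (q : ℤ) ∣ ev N (vv6 u) := by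
    intro u hu
    rw [(hy u).2]
    exact dvd_pow (h2.trans hu) two_ne_zero
  exact hq q hq1 i j k hij hik hjk ⟨h3 i hi, h3 j hj, h3 k hk⟩

/-- EXTRA6 from EX6 -/
theorem extra6 (hEX : ST_EX6) : ∀ ε : ℝ, 0 < ε → ∀ C : ℤ, ∃ D : ℝ, 0 < D ∧ ∀ n : ℕ, 1 ≤ n →
    (SF6 C n).Finite ∧ ((SF6 C n).ncard : ℝ) ≤ D * (n : ℝ) ^ (4 + ε) := by
  intro ε hε C
  obtain ⟨D, hD, h⟩ := hEX vv6 (1, 0, 0) nodes_vv6 C 1 ε hε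
  refine ⟨D, hD, fun n hn => ?_⟩
  obtain ⟨hf, hc⟩ := h n hn
  refine ⟨hf.subset (sf6_subset C n), le_trans ?_ hc⟩
  exact_mod_cast Set.ncard_le_ncard (sf6_subset C n) hf

end Pool.Helper76.R6
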