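import Pool.Agent.Helper67.R6.Fam

/-! # Row SVE of the family part (MP_798d7d_nt, rank six) -/

set_option autoImplicit false

namespace Pool.Helper67.R6

/-- the index modulo three -/
def veR : Fin 6 → Fin 3 := ![0, 1, 2, 0, 1, 2]
def veP : Fin 3 → Fin 3 × Fin 3 := ![(0, 1), (0, 2), (1, 2)]
def veB : Fin 6 → Bool := ![false, false, false, true, true, true]
def veS (F : Type) [Field F] (b : Bool) : F := if b then 1 else -1

theorem ve_pair : ∀ i j : Fin 6, (i : ℕ) % 3 ≠ (j : ℕ) % 3 → ∃ k : Fin 3,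
    (veR i = (veP k).1 ∧ veR j = (veP k).2) ∨ (veR j = (veP k).1 ∧ veR i = (veP k).2) := by
  decide

theorem ve_ne : ∀ k : Fin 3, (veP k).1 ≠ (veP k).2 := by
  decide

theorem ve_mapU (F : Type) [Field F] (w : Par) (a : Fin 3) : ((U w a : ℤ) : F) =
    U ((((w.1.1 : ℤ) : F), ((w.1.2 : ℤ) : F)), fun k => ((w.2 k : ℤ) : F)) a := by
  fin_cases a <;> simp [U]

theorem ve_mapV (F : Type) [Field F] (w : Par) (a : Fin 3) : ((V w.2 a : ℤ) : F) =
    V (fun k => ((w.2 k : ℤ) : F)) a := by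
  fin_cases a <;> simp [V]

theorem ve_cong (m : ℕ) (T : (ℕ × ℕ) × (Fin 6 → ℕ)) : Cong (ww m T) := by
  refine ⟨⟨(T.1.1 : ℤ), ?_⟩, ⟨(T.1.2 : ℤ), ?_⟩, fun i =>
    ⟨1000 * sh i * (m : ℤ) + (T.2 i : ℤ), ?_⟩⟩ <;> simp only [ww] <;> ring

theorem ve_root (hREL : ST_REL) (w : Par) (hw : Cong w) (q : ℕ) [Fact q.Prime] (i : Fin 6)
    (hi : (q : ℤ) ∣ YY w i) : ((U w (veR i) : ℤ) : ZMod q) =
      veS (ZMod q) (veB i) * ((V w.2 (veR i) : ℤ) : ZMod q) := by
  obtain ⟨⟨h0, h1, h2, h3, h4, h5⟩, -⟩ := hREL w hw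
  have hz : ((2 * YY w i : ℤ) : ZMod q) = 0 :=
    (ZMod.intCast_zmod_eq_zero_iff_dvd _ q).2 (Dvd.dvd.mul_left hi 2)
  fin_cases i
  · change ((2 * YY w 0 : ℤ) : ZMod q) = 0 at hz
    rw [h0, Int.cast_add] at hz
    change ((U w 0 : ℤ) : ZMod q) = (if false then 1 else -1) * ((V w.2 0 : ℤ) : ZMod q)
    simp only [Bool.false_eq_true, if_false]
    linear_combination hz
  · change ((2 * YY w 1 : ℤ) : ZMod q) = 0 at hz
    rw [h1, Int.cast_add] at hz
    change ((U w 1 : ℤ) : ZMod q) = (if false then 1 else -1) * ((V w.2 1 : ℤ) : ZMod q)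
    simp only [Bool.false_eq_true, if_false]
    linear_combination hz
  · change ((2 * YY w 2 : ℤ) : ZMod q) = 0 at hz
    rw [h2, Int.cast_add] at hz
    change ((U w 2 : ℤ) : ZMod q) = (if false then 1 else -1) * ((V w.2 2 : ℤ) : ZMod q)
    simp only [Bool.false_eq_true, if_false]
    linear_combination hz
  · change ((2 * YY w 3 : ℤ) : ZMod q) = 0 at hz
    rw [h3, Int.cast_sub] at hz
    change ((U w 0 : ℤ) : ZMod q) = (if true then 1 else -1) * ((V w.2 0 : ℤ) : ZMod q)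
    simp only [if_true]
    linear_combination -hz
  · change ((2 * YY w 4 : ℤ) : ZMod q) = 0 at hz
    rw [h4, Int.cast_sub] at hz
    change ((U w 1 : ℤ) : ZMod q) = (if true then 1 else -1) * ((V w.2 1 : ℤ) : ZMod q)
    simp only [if_true]
    linear_combination -hz
  · change ((2 * YY w 5 : ℤ) : ZMod q) = 0 at hz
    rw [h5, Int.cast_sub] at hz
    change ((U w 2 : ℤ) : ZMod q) = (if true then 1 else -1) * ((V w.2 2 : ℤ) : ZMod q)
    simp only [if_true]
    linear_combination -hz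

theorem ve_MM (q : ℕ) (hq : q.Prime) (hQ : QQ < q) : ¬ (q : ℤ) ∣ MM := by
  intro h
  unfold MM at h
  have hp : Prime (q : ℤ) := Nat.prime_iff_prime_int.1 hq
  have hQ1 : 10000 < q := hQ
  rcases hp.dvd_or_dvd h with h1 | h1
  · have h2 : (q : ℤ) ∣ (120 : ℤ) ^ 2 := by
      have : (120 : ℤ) ^ 2 = 14400 := by norm_num
      rw [this]; exact h1
    have h3 := hp.dvd_of_dvd_pow h2
    have h4 := Int.le_of_dvd (by norm_num) h3
    omega
  · have h2 : q ∣ QQ.factorial := Int.natCast_dvd_natCast.1 h1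
    exact absurd ((hq.dvd_factorial).1 h2) (not_le.2 hQ)

/-- row SVE -/
theorem st_SVE (hREL : ST_REL) (hRCL : ST_RCL) (hSVT : ST_SVT) : ST_SVE := by
  classical
  intro m q hm hq hQ
  haveI : Fact q.Prime := ⟨hq⟩
  have hQ1 : 10000 < q := hQ
  have hMM := ve_MM q hq hQ
  have h30 : (30 : ZMod q) ≠ 0 := by
    intro h
    have h1 : ((30 : ℤ) : ZMod q) = 0 := by exact_mod_cast h
    have h2 := (ZMod.intCast_zmod_eq_zero_iff_dvd 30 q).1 h1
    have h3 := Int.le_of_dvd (by norm_num) h2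
    omega
  have hh : m / q + 1 ≤ m := by
    rcases Nat.lt_or_ge m 2 with h | h
    · have h1 : m = 1 := by omega
      rw [h1, Nat.div_eq_of_lt (by omega : 1 < q)]
    · have h1 : m / q ≤ m / 2 := Nat.div_le_div_left (by omega) (by norm_num)
      omega
  set X : ℕ → ZMod q := fun t => ((1 + MM * (t : ℤ) : ℤ) : ZMod q) with hX
  set Y : ℕ → ZMod q := fun t => ((-1 + MM * (t : ℤ) : ℤ) : ZMod q) with hY
  set x : Fin 6 → ℕ → ZMod q := fun i t =>
    ((zb i + MM * (1000 * sh i * (m : ℤ) + (t : ℤ)) : ℤ) : ZMod q) with hx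
  have hXc : ∀ r, ((Finset.range m).filter (fun t => X t = r)).card ≤ m / q + 1 := fun r =>
    hRCL q m 1 MM hq hMM r
  have hYc : ∀ r, ((Finset.range m).filter (fun t => Y t = r)).card ≤ m / q + 1 := fun r =>
    hRCL q m (-1) MM hq hMM r
  have hxc : ∀ i r, ((Finset.range m).filter (fun t => x i t = r)).card ≤ m / q + 1 := by
    intro i r
    have h1 := hRCL q m (zb i + MM * (1000 * sh i * (m : ℤ))) MM hq hMM r
    refine le_trans (le_of_eq ?_) h1
    congr 1
    apply Finset.filter_congr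
    intro t _
    have e : zb i + MM * (1000 * sh i * (m : ℤ) + (t : ℤ)) =
        zb i + MM * (1000 * sh i * (m : ℤ)) + MM * (t : ℤ) := by ring
    simp only [hx]
    rw [e]
  set f : Fin 3 × Bool × Bool → Finset ((ℕ × ℕ) × (Fin 6 → ℕ)) := fun k =>
    (Box m).filter (fun T =>
      U ((X T.1.1, Y T.1.2), fun l => x l (T.2 l)) (veP k.1).1 =
        veS (ZMod q) k.2.1 * V (fun l => x l (T.2 l)) (veP k.1).1 ∧
      U ((X T.1.1, Y T.1.2), fun l => x l (T.2 l)) (veP k.1).2 =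
        veS (ZMod q) k.2.2 * V (fun l => x l (T.2 l)) (veP k.1).2) with hf
  have hS : ∀ b : Bool, veS (ZMod q) b = 1 ∨ veS (ZMod q) b = -1 := by
    intro b
    cases b
    · right; rfl
    · left; rfl
  have hcard : ∀ k ∈ (Finset.univ : Finset (Fin 3 × Bool × Bool)),
      (f k).card ≤ 4 * m ^ 6 * (m / q + 1) ^ 2 := by
    intro k _
    have h0 := hSVT (ZMod q) h30 m (m / q + 1) X Y x hh
      (fun r => by have := hXc r; convert this) (fun r => by have := hYc r; convert this)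
      (fun i r => by have := hxc i r; convert this) (veP k.1).1 (veP k.1).2
      (veS (ZMod q) k.2.1) (veS (ZMod q) k.2.2) (ve_ne k.1) (hS _) (hS _)
    convert h0
  have hroot : ∀ T i, (q : ℤ) ∣ YY (ww m T) i →
      U ((X T.1.1, Y T.1.2), fun l => x l (T.2 l)) (veR i) =
        veS (ZMod q) (veB i) * V (fun l => x l (T.2 l)) (veR i) := by
    intro T i hi
    have h1 := ve_root hREL (ww m T) (ve_cong m T) q i hi
    rw [ve_mapU, ve_mapV] at h1
    exact h1
  have hsub : (Box m).filter (fun T => ∃ i j : Fin 6, (i : ℕ) % 3 ≠ (j : ℕ) % 3 ∧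
      (q : ℤ) ∣ YY (ww m T) i ∧ (q : ℤ) ∣ YY (ww m T) j) ⊆
      (Finset.univ : Finset (Fin 3 × Bool × Bool)).biUnion f := by
    intro T hT
    rw [Finset.mem_filter] at hT
    obtain ⟨hTB, i, j, hij, hi, hj⟩ := hT
    rw [Finset.mem_biUnion]
    have ri := hroot T i hi
    have rj := hroot T j hj
    obtain ⟨k, ⟨hk1, hk2⟩ | ⟨hk1, hk2⟩⟩ := ve_pair i j hij
    · refine ⟨(k, veB i, veB j), Finset.mem_univ _, ?_⟩
      rw [hk1] at ri
      rw [hk2] at rj
      exact Finset.mem_filter.2 ⟨hTB, ri, rj⟩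
    · refine ⟨(k, veB j, veB i), Finset.mem_univ _, ?_⟩
      rw [hk1] at rj
      rw [hk2] at ri
      exact Finset.mem_filter.2 ⟨hTB, rj, ri⟩
  have h1 := Finset.card_le_card hsub
  have h2 := Finset.card_biUnion_le_card_mul _ f _ hcard
  have h3 : (Finset.univ : Finset (Fin 3 × Bool × Bool)).card = 12 := by decide
  rw [h3] at h2
  calc _ ≤ _ := h1
    _ ≤ 12 * (4 * m ^ 6 * (m / q + 1) ^ 2) := h2
    _ = 48 * (m ^ 6 * (m / q + 1) ^ 2) := by ring
    _ ≤ 60 * (m ^ 6 * (m / q + 1) ^ 2) := Nat.mul_le_mul_right _ (by norm_num)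
    _ = _ := by ring

end Pool.Helper67.R6
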